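import Pool.Agent.Helper5_lac.Riesz

/-! Approximation of indicator functions by trigonometric polynomials in `L²(0, 2π)`. -/

set_option autoImplicit false
open MeasureTheory Filter Finset Topology

namespace Pool.Agent.Helper5_lac

theorem exists_trig_approx (f : ℝ → ℂ) (hf : MemLp f 2 (volume.restrict (Set.Ioc 0 (2 * Real.pi))))
    (η : ℝ) (hη : 0 < η) :
    ∃ (s : Finset ℤ) (c : ℤ → ℂ),
      ∫ x in (0:ℝ)..(2 * Real.pi), ‖f x - ∑ N ∈ s, c N * e N x‖ ^ 2 ≤ η := by
  have hpi := Real.pi_pos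
  have hfact : Fact (0 < 2 * Real.pi) := ⟨by positivity⟩
  have hf0 : MemLp f 2 (volume.restrict (Set.Ioc 0 (0 + 2 * Real.pi))) := by
    rw [zero_add]; exact hf
  have hF := MeasureTheory.memLp_haarAddCircle_iff.mpr hf0.memLp_liftIoc
  set F := AddCircle.liftIoc (2 * Real.pi) 0 f with hFdef
  have hsum := hasSum_fourier_series_L2 (hF.toLp F)
  have htend := tendsto_iff_norm_sub_tendsto_zero.mp hsum
  have hδ : 0 < Real.sqrt (η / (2 * Real.pi)) := Real.sqrt_pos.mpr (by positivity)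
  obtain ⟨s, hs⟩ := (htend.eventually (gt_mem_nhds hδ)).exists
  set c : ℤ → ℂ := fun N => fourierCoeff (hF.toLp F) N with hc
  refine ⟨s, c, ?_⟩
  -- the L2 norm
  set φ : AddCircle (2 * Real.pi) → ℂ := fun x => ∑ N ∈ s, c N * fourier N x with hφ
  have hcoe : (((∑ N ∈ s, fourierCoeff (hF.toLp F) N • fourierLp 2 N) - hF.toLp F :
      Lp ℂ 2 (@AddCircle.haarAddCircle (2 * Real.pi) hfact)) : AddCircle (2 * Real.pi) → ℂ)
      =ᵐ[AddCircle.haarAddCircle] fun x => φ x - F x := by
    refine (Lp.coeFn_sub _ _).trans ?_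
    have h1 : ((∑ N ∈ s, fourierCoeff (hF.toLp F) N • fourierLp 2 N :
      Lp ℂ 2 (@AddCircle.haarAddCircle (2 * Real.pi) hfact)) : AddCircle (2 * Real.pi) → ℂ)
      =ᵐ[AddCircle.haarAddCircle] φ := by
      have h2 : ∀ t : Finset ℤ, ((∑ N ∈ t, fourierCoeff (hF.toLp F) N • fourierLp 2 N :
          Lp ℂ 2 (@AddCircle.haarAddCircle (2 * Real.pi) hfact)) : AddCircle (2 * Real.pi) → ℂ)
          =ᵐ[AddCircle.haarAddCircle] fun x => ∑ N ∈ t, c N * fourier N x := by
        intro t
        induction t using Finset.induction_on with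
        | empty =>
          simp only [Finset.sum_empty]
          exact Lp.coeFn_zero _ _ _
        | insert a t ha ih =>
          rw [Finset.sum_insert ha]
          refine (Lp.coeFn_add _ _).trans ?_
          filter_upwards [ih, Lp.coeFn_smul (fourierCoeff (hF.toLp F) a)
            (fourierLp (T := 2 * Real.pi) 2 a), coeFn_fourierLp (T := 2 * Real.pi) 2 a] with x h3 h4 h5
          rw [Finset.sum_insert ha, Pi.add_apply, h3, h4, Pi.smul_apply, h5]
          rfl
      exact h2 s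
    filter_upwards [h1, hF.coeFn_toLp] with x h3 h4
    rw [Pi.sub_apply, h3, h4]
  set g : Lp ℂ 2 (@AddCircle.haarAddCircle (2 * Real.pi) hfact) :=
    (∑ N ∈ s, fourierCoeff (hF.toLp F) N • fourierLp 2 N) - hF.toLp F with hg
  have hnorm : ‖g‖ ^ 2 = ∫ x, ‖φ x - F x‖ ^ 2 ∂(@AddCircle.haarAddCircle (2 * Real.pi) hfact) := by
    have H₃ := congr_arg RCLike.re (@L2.inner_def (AddCircle (2 * Real.pi)) ℂ ℂ _ _ _ _ _ g g)
    rw [← integral_re (L2.integrable_inner g g)] at H₃
    simp only [← norm_sq_eq_re_inner] at H₃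
    rw [H₃]
    refine integral_congr_ae ?_
    filter_upwards [hcoe] with x hx
    rw [hx]
  have hsmall : ‖g‖ ^ 2 ≤ η / (2 * Real.pi) := by
    have h1 : ‖g‖ < Real.sqrt (η / (2 * Real.pi)) := hs
    calc ‖g‖ ^ 2 ≤ Real.sqrt (η / (2 * Real.pi)) ^ 2 := pow_le_pow_left₀ (norm_nonneg _) h1.le 2
      _ = η / (2 * Real.pi) := Real.sq_sqrt (by positivity)
  rw [hnorm, AddCircle.integral_haarAddCircle, ← AddCircle.intervalIntegral_preimage _ 0,
    zero_add, smul_eq_mul] at hsmall
  have hfin : ∫ x in (0:ℝ)..(2 * Real.pi), ‖f x - ∑ N ∈ s, c N * e N x‖ ^ 2 =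
      ∫ x in (0:ℝ)..(2 * Real.pi), ‖φ (x : AddCircle (2 * Real.pi)) - F (x : AddCircle (2 * Real.pi))‖ ^ 2 := by
    apply intervalIntegral.integral_congr_ae
    refine Eventually.of_forall (fun x hx => ?_)
    rw [Set.uIoc_of_le (by positivity)] at hx
    have h1 : F (x : AddCircle (2 * Real.pi)) = f x := by
      rw [hFdef]
      apply AddCircle.liftIoc_coe_apply
      rw [zero_add]
      exact hx
    have h2 : φ (x : AddCircle (2 * Real.pi)) = ∑ N ∈ s, c N * e N x := by
      rw [hφ]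
      refine Finset.sum_congr rfl (fun N _ => ?_)
      rw [fourier_coe_apply]
      unfold e
      congr 2
      have : (Real.pi : ℂ) ≠ 0 := by exact_mod_cast hpi.ne'
      push_cast
      field_simp
    rw [h1, h2, norm_sub_rev]
  rw [hfin]
  rw [inv_mul_le_iff₀ (by positivity)] at hsmall
  calc _ ≤ 2 * Real.pi * (η / (2 * Real.pi)) := hsmall
    _ = η := by field_simp

end Pool.Agent.Helper5_lac
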