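import Pool.Agent.Helper5_lac.Approx

/-! Quantitative bounds for the correlations `T`. -/

set_option autoImplicit false
open MeasureTheory Filter Finset Topology

namespace Pool.Agent.Helper5_lac

theorem sum_dvd (r : ℕ) (hr : 0 < r) (c : ℂ) (J : ℕ) :
    ∑ k ∈ range (r * J), (if r ∣ k then c else 0) = J * c := by
  induction J with
  | zero => simp
  | succ J ih =>
    rw [Nat.mul_succ, Finset.sum_range_add, ih]
    have : ∑ x ∈ range r, (if r ∣ r * J + x then c else 0) = c := by
      rw [Finset.sum_eq_single 0]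
      · simp
      · intro i hi hi0
        rw [if_neg]
        intro hdvd
        rw [Nat.dvd_add_right (Dvd.intro _ rfl)] at hdvd
        have := Nat.le_of_dvd (Nat.pos_of_ne_zero hi0) hdvd
        have := Finset.mem_range.mp hi
        omega
      · intro h
        exact absurd (Finset.mem_range.mpr hr) h
    rw [this]
    push_cast
    ring

/-- properties of the sparse subsequence -/
theorem sub_props (n : ℕ → ℕ) (q : ℝ) (hq : 1 < q) (hn : ∀ k, 0 < n k)
    (h : ∀ k, q * (n k : ℝ) ≤ (n (k + 1) : ℝ)) :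
    ∃ r : ℕ, 0 < r ∧ ∀ j, 3 * n (r * j) ≤ n (r * (j + 1)) := by
  obtain ⟨r, hr⟩ := pow_unbounded_of_one_lt (3 : ℝ) hq
  have hr0 : 0 < r := by
    rcases Nat.eq_zero_or_pos r with rfl | h'
    · norm_num at hr
    · exact h'
  refine ⟨r, hr0, fun j => ?_⟩
  have h1 : ∀ i k, q ^ i * (n k : ℝ) ≤ n (k + i) := by
    intro i
    induction i with
    | zero => intro k; simp
    | succ i ih =>
      intro k
      have h2 := ih k
      have h3 := h (k + i)
      calc q ^ (i + 1) * (n k : ℝ) = q * (q ^ i * n k) := by ring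
        _ ≤ q * n (k + i) := mul_le_mul_of_nonneg_left h2 (by linarith)
        _ ≤ n (k + i + 1) := h3
  have h2 := h1 r (r * j)
  have h3 : (0 : ℝ) < n (r * j) := by exact_mod_cast hn _
  have h4 : (3 : ℝ) * n (r * j) ≤ n (r * j + r) := by nlinarith
  have h5 : r * (j + 1) = r * j + r := by ring
  rw [h5]
  exact_mod_cast h4

/-- the correlation with a nonconstant character stays bounded -/
theorem T_bound (n : ℕ → ℕ) (q : ℝ) (hq : 1 < q) (hn : ∀ k, 0 < n k)
    (h : ∀ k, q * (n k : ℝ) ≤ (n (k + 1) : ℝ)) (r : ℕ)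
    (hr : ∀ j, 3 * n (r * j) ≤ n (r * (j + 1))) (N : ℤ) (hN : N ≠ 0) :
    ∃ K : ℕ, ∀ b : ℂ, ‖b‖ ≤ 1 → ∀ J m : ℕ,
      ‖T n (fun j => n (r * j)) b J m N‖ ≤ 2 * Real.pi * K + 2 * Real.pi * ‖b‖ ^ 2 * m := by
  have hpi := Real.pi_pos
  obtain ⟨K, hK⟩ := no_coinc n q hq hn h N hN
  refine ⟨K, fun b hb J m => ?_⟩
  have hl0 : 0 < (fun j => n (r * j)) 0 := hn _
  have hp := (A_props (fun j => n (r * j)) hl0 hr b hb J).2.2.2.2
  have hA := A_norm_le (fun j => n (r * j)) hl0 hr b hb J
  rw [T_eq]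
  have hterm : ∀ k ∈ range m, ‖(A (fun j => n (r * j)) b J (N + n k) +
      A (fun j => n (r * j)) b J (N - n k)) / 2‖ ≤
      2 * Real.pi * ‖b‖ ^ 2 + (if k < K then 2 * Real.pi else 0) := by
    intro k _
    have hdiv : ‖(A (fun j => n (r * j)) b J (N + n k) +
      A (fun j => n (r * j)) b J (N - n k)) / 2‖ ≤
      (‖A (fun j => n (r * j)) b J (N + n k)‖ + ‖A (fun j => n (r * j)) b J (N - n k)‖) / 2 := by
      rw [norm_div]
      have : ‖(2 : ℂ)‖ = 2 := by simp
      rw [this]
      exact div_le_div_of_nonneg_right (norm_add_le _ _) (by norm_num)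
    split_ifs with hk
    · have h1 := hA (N + n k)
      have h2 := hA (N - n k)
      have h3 : 0 ≤ 2 * Real.pi * ‖b‖ ^ 2 := by positivity
      linarith
    · push Not at hk
      have h1 := hK k hk
      have h2 := hp (N + n k) (h1 _ (Or.inl rfl)).1 (fun j _ => (h1 _ (Or.inl rfl)).2 _)
      have h3 := hp (N - n k) (h1 _ (Or.inr rfl)).1 (fun j _ => (h1 _ (Or.inr rfl)).2 _)
      linarith
  refine (norm_sum_le _ _).trans ((Finset.sum_le_sum hterm).trans ?_)
  rw [Finset.sum_add_distrib]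
  have h1 : ∑ k ∈ range m, (2 * Real.pi * ‖b‖ ^ 2) = 2 * Real.pi * ‖b‖ ^ 2 * m := by
    simp; ring
  have h2 : ∑ k ∈ range m, (if k < K then 2 * Real.pi else 0) ≤ 2 * Real.pi * K := by
    rw [← Finset.sum_filter, Finset.sum_const, nsmul_eq_mul, mul_comm]
    apply mul_le_mul_of_nonneg_left _ (by positivity)
    have h3 : (filter (fun k => k < K) (range m)).card ≤ K := by
      calc (filter (fun k => k < K) (range m)).card ≤ (range K).card := by
            apply Finset.card_le_card
            intro k hk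
            exact Finset.mem_range.mpr (Finset.mem_filter.mp hk).2
        _ = K := Finset.card_range K
    exact_mod_cast h3
  linarith

/-- the correlation with the constant -/
theorem T_zero (n : ℕ → ℕ) (q : ℝ) (hq : 1 < q) (hn : ∀ k, 0 < n k)
    (h : ∀ k, q * (n k : ℝ) ≤ (n (k + 1) : ℝ)) (r : ℕ) (hr0 : 0 < r)
    (hr : ∀ j, 3 * n (r * j) ≤ n (r * (j + 1))) (b : ℂ) (hb : ‖b‖ ≤ 1) (J : ℕ) :
    ‖T n (fun j => n (r * j)) b J (r * J) 0 - J * (2 * Real.pi * b)‖ ≤
      2 * Real.pi * ‖b‖ ^ 2 * (r * J) := by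
  have hpi := Real.pi_pos
  have hmono := strictMono_n n q hq hn h
  have hl0 : 0 < (fun j => n (r * j)) 0 := hn _
  have hp := A_props (fun j => n (r * j)) hl0 hr b hb J
  obtain ⟨-, -, -, hp4, hp5⟩ := hp
  rw [T_eq, ← sum_dvd r hr0, ← Finset.sum_sub_distrib]
  have hterm : ∀ k ∈ range (r * J), ‖(A (fun j => n (r * j)) b J (0 + n k) +
      A (fun j => n (r * j)) b J (0 - n k)) / 2 - (if r ∣ k then 2 * Real.pi * b else 0)‖ ≤
      2 * Real.pi * ‖b‖ ^ 2 := by
    intro k hk
    rw [zero_add, zero_sub]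
    split_ifs with hdvd
    · obtain ⟨j, rfl⟩ := hdvd
      have hj : j < J := by
        have := Finset.mem_range.mp hk
        exact Nat.lt_of_mul_lt_mul_left this
      obtain ⟨h6, h7⟩ := hp4 j hj
      rw [h6, h7]
      have : (2 * (Real.pi : ℂ) * b + 2 * Real.pi * b) / 2 - 2 * Real.pi * b = 0 := by ring
      rw [this, norm_zero]
      positivity
    · rw [sub_zero]
      have hne : ∀ j, j < J → n k ≠ n (r * j) := by
        intro j _ hkj
        exact hdvd ⟨j, hmono.injective hkj⟩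
      have hpos := hn k
      have h2 := hp5 (n k) (by omega) (fun j hj => by
        have := hne j hj
        omega)
      have h3 := hp5 (-(n k : ℤ)) (by omega) (fun j hj => by
        have := hne j hj
        omega)
      rw [norm_div]
      have h4 : ‖(2 : ℂ)‖ = 2 := by simp
      rw [h4, div_le_iff₀ (by norm_num)]
      refine (norm_add_le _ _).trans ?_
      linarith
  refine (norm_sum_le _ _).trans ((Finset.sum_le_sum hterm).trans ?_)
  simp
  apply le_of_eq
  ring

/-- the product is bounded by `2` -/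
theorem G_norm_le (l : ℕ → ℕ) (J : ℕ) (hJ : 0 < J) (x : ℝ) :
    ‖G l (Complex.I / (2 * Real.sqrt J)) J x‖ ≤ 2 := by
  have hJ' : (0 : ℝ) < J := by exact_mod_cast hJ
  have hsq : (0 : ℝ) < Real.sqrt J := Real.sqrt_pos.mpr hJ'
  have h1 : ‖G l (Complex.I / (2 * Real.sqrt J)) J x‖ ^ 2 ≤ (1 + 1 / (J : ℝ)) ^ J := by
    unfold G
    rw [norm_prod, ← Finset.prod_pow]
    calc ∏ j ∈ range J, ‖1 + 2 * (Complex.I / (2 * Real.sqrt J)) *
          (Real.cos ((l j : ℝ) * x) : ℂ)‖ ^ 2 ≤ ∏ j ∈ range J, (1 + 1 / (J : ℝ)) := by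
          refine Finset.prod_le_prod (fun _ _ => by positivity) (fun j _ => ?_)
          have h2 : (1 + 2 * (Complex.I / (2 * Real.sqrt J)) * (Real.cos ((l j : ℝ) * x) : ℂ)) =
              ((1 : ℝ) : ℂ) + ((Real.cos ((l j : ℝ) * x) / Real.sqrt J : ℝ) : ℂ) * Complex.I := by
            have : (Real.sqrt J : ℂ) ≠ 0 := by exact_mod_cast hsq.ne'
            push_cast
            field_simp
          rw [h2, ← Complex.normSq_eq_norm_sq, Complex.normSq_add_mul_I]
          rw [div_pow, Real.sq_sqrt hJ'.le, one_pow]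
          have h3 : Real.cos ((l j : ℝ) * x) ^ 2 ≤ 1 := Real.cos_sq_le_one _
          have := div_le_div_of_nonneg_right h3 hJ'.le
          linarith
      _ = (1 + 1 / (J : ℝ)) ^ J := by simp
  have h4 : (1 + 1 / (J : ℝ)) ^ J ≤ 4 := by
    have h5 : 1 + 1 / (J : ℝ) ≤ Real.exp (1 / J) := by
      have := Real.add_one_le_exp (1 / (J : ℝ)); linarith
    calc (1 + 1 / (J : ℝ)) ^ J ≤ (Real.exp (1 / J)) ^ J := pow_le_pow_left₀ (by positivity) h5 J
      _ = Real.exp 1 := by
        rw [← Real.exp_nat_mul]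
        congr 1
        field_simp
      _ ≤ 4 := by have := Real.exp_one_lt_d9; linarith
  have h6 : ‖G l (Complex.I / (2 * Real.sqrt J)) J x‖ ^ 2 ≤ 2 ^ 2 := by linarith
  exact le_of_sq_le_sq h6 (by norm_num) |>.trans le_rfl

theorem norm_b (J : ℕ) (hJ : 0 < J) :
    ‖(Complex.I / (2 * Real.sqrt J) : ℂ)‖ ^ 2 = 1 / (4 * J) ∧
    ‖(Complex.I / (2 * Real.sqrt J) : ℂ)‖ ≤ 1 := by
  have hJ' : (1 : ℝ) ≤ J := by exact_mod_cast hJ
  have h1 : ‖(Complex.I / (2 * Real.sqrt J) : ℂ)‖ = 1 / (2 * Real.sqrt J) := by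
    rw [norm_div, Complex.norm_I, norm_mul, Complex.norm_real, Real.norm_of_nonneg (Real.sqrt_nonneg _)]
    simp
  have h2 : 1 ≤ Real.sqrt J := by rw [Real.one_le_sqrt]; exact hJ'
  rw [h1]
  constructor
  · rw [div_pow, mul_pow, Real.sq_sqrt (by linarith)]
    norm_num
  · rw [div_le_one (by linarith)]
    linarith

/-- the second moment of the partial sums -/
theorem integral_S_sq (n : ℕ → ℕ) (hinj : Function.Injective n) (hn : ∀ k, 0 < n k) (m : ℕ) :
    ∫ x in (0:ℝ)..(2 * Real.pi), (S n m x) ^ 2 = Real.pi * m := by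
  have hT : ∀ j, j < m → ∀ s : ℤ, (s = n j ∨ s = -(n j : ℤ)) → T n n 0 0 m s = Real.pi := by
    intro j hj s hs
    rw [T_eq, Finset.sum_eq_single j]
    · rw [A_zero, A_zero]
      have := hn j
      rcases hs with rfl | rfl
      · rw [if_neg (by omega), if_pos (by omega)]; ring
      · rw [if_pos (by omega), if_neg (by omega)]; ring
    · intro k _ hkj
      have h1 : n k ≠ n j := fun h => hkj (hinj h)
      have h2 := hn j
      have h3 := hn k
      rw [A_zero, A_zero]
      rcases hs with rfl | rfl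
      · rw [if_neg (by omega), if_neg (by omega)]; ring
      · rw [if_neg (by omega), if_neg (by omega)]; ring
    · intro h
      exact absurd (Finset.mem_range.mpr hj) h
  have hc : ((∫ x in (0:ℝ)..(2 * Real.pi), (S n m x) ^ 2 : ℝ) : ℂ) = ((Real.pi * m : ℝ) : ℂ) := by
    rw [← intervalIntegral.integral_ofReal]
    have h1 : ∀ x : ℝ, (((S n m x) ^ 2 : ℝ) : ℂ) =
        ∑ j ∈ range m, (e (n j) x * ((S n m x : ℂ) * G n 0 0 x) +
          e (-(n j : ℤ)) x * ((S n m x : ℂ) * G n 0 0 x)) / 2 := by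
      intro x
      have h2 : (S n m x : ℂ) = ∑ j ∈ range m, (e (n j) x + e (-(n j : ℤ)) x) / 2 := by
        unfold S
        rw [Complex.ofReal_sum]
        exact Finset.sum_congr rfl (fun j _ => cos_eq _ _)
      push_cast
      rw [pow_two]
      nth_rw 1 [h2]
      rw [Finset.sum_mul]
      refine Finset.sum_congr rfl (fun j _ => ?_)
      simp only [G, Finset.range_zero, Finset.prod_empty, mul_one]
      ring
    simp_rw [h1]
    have hI : ∀ v : ℤ, IntervalIntegrable (fun x => e v x * ((S n m x : ℂ) * G n 0 0 x))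
        volume 0 (2 * Real.pi) := fun v =>
      ((continuous_e v).mul ((Complex.continuous_ofReal.comp (continuous_S n m)).mul
        (continuous_G n 0 0))).intervalIntegrable _ _
    rw [intervalIntegral.integral_finsetSum (fun j _ => ((hI _).add (hI _)).div_const 2)]
    have h3 : ∀ j ∈ range m, ∫ x in (0:ℝ)..(2 * Real.pi),
        (e (n j) x * ((S n m x : ℂ) * G n 0 0 x) +
          e (-(n j : ℤ)) x * ((S n m x : ℂ) * G n 0 0 x)) / 2 = Real.pi := by
      intro j hj
      rw [intervalIntegral.integral_div, intervalIntegral.integral_add (hI _) (hI _)]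
      have h4 := hT j (Finset.mem_range.mp hj) (n j) (Or.inl rfl)
      have h5 := hT j (Finset.mem_range.mp hj) (-(n j : ℤ)) (Or.inr rfl)
      unfold T at h4 h5
      rw [h4, h5]
      ring
    rw [Finset.sum_congr rfl h3]
    simp
    ring
  exact_mod_cast hc

end Pool.Agent.Helper5_lac
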