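import Mathlib

/-! Lacunary cosine sums: a sign change of `S_m - ξ` at a point forces an exact hit of the level `ξ`
within one period of the last term. Together with the Lebesgue density theorem this shows that almost
every point at which the sums stay away from `ξ` sees only finitely many sign changes. -/

set_option autoImplicit false
open MeasureTheory Filter Finset Topology

namespace Pool.Agent.Helper5_lac

/-- partial sums of the lacunary cosine series -/
noncomputable def S (n : ℕ → ℕ) (m : ℕ) (x : ℝ) : ℝ := ∑ k ∈ range m, Real.cos ((n k : ℝ) * x)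

theorem S_succ (n : ℕ → ℕ) (m : ℕ) (x : ℝ) :
    S n (m + 1) x = S n m x + Real.cos ((n m : ℝ) * x) := by
  unfold S
  rw [Finset.sum_range_succ]

theorem continuous_S (n : ℕ → ℕ) (m : ℕ) : Continuous (S n m) := by
  unfold S
  fun_prop

theorem sum_freq_le (n : ℕ → ℕ) (q : ℝ) (hq : 1 < q)
    (h : ∀ k, q * (n k : ℝ) ≤ (n (k + 1) : ℝ)) (m : ℕ) :
    ∑ k ∈ range (m + 1), (n k : ℝ) ≤ q / (q - 1) * n m := by
  have hq1 : 0 < q - 1 := by linarith
  induction m with
  | zero =>
    simp only [zero_add, Finset.sum_range_one]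
    have h1 : 1 ≤ q / (q - 1) := by rw [le_div_iff₀ hq1]; linarith
    nlinarith [Nat.cast_nonneg (α := ℝ) (n 0)]
  | succ m ih =>
    rw [Finset.sum_range_succ]
    have h1 : q / (q - 1) * (n m : ℝ) ≤ 1 / (q - 1) * n (m + 1) := by
      rw [div_mul_eq_mul_div, div_mul_eq_mul_div]
      apply div_le_div_of_nonneg_right _ hq1.le
      rw [one_mul]
      exact h m
    have h2 : q / (q - 1) * (n (m + 1) : ℝ) = 1 / (q - 1) * n (m + 1) + n (m + 1) := by
      field_simp
      ring
    linarith

theorem S_lip (n : ℕ → ℕ) (m : ℕ) (x y : ℝ) :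
    |S n m x - S n m y| ≤ (∑ k ∈ range m, (n k : ℝ)) * |x - y| := by
  unfold S
  rw [← Finset.sum_sub_distrib, Finset.sum_mul]
  refine (Finset.abs_sum_le_sum_abs _ _).trans (Finset.sum_le_sum (fun k _ => ?_))
  have h := Real.abs_cos_sub_cos_le ((n k : ℝ) * x) ((n k : ℝ) * y)
  refine h.trans (le_of_eq ?_)
  rw [← mul_sub, abs_mul, Nat.abs_cast]

theorem S_lip' (n : ℕ → ℕ) (q : ℝ) (hq : 1 < q)
    (h : ∀ k, q * (n k : ℝ) ≤ (n (k + 1) : ℝ)) (m i : ℕ) (hi : i ≤ m + 1) (x y : ℝ) :
    |S n i x - S n i y| ≤ q / (q - 1) * n m * |x - y| := by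
  refine (S_lip n i x y).trans (mul_le_mul_of_nonneg_right ?_ (abs_nonneg _))
  refine le_trans ?_ (sum_freq_le n q hq h m)
  exact Finset.sum_le_sum_of_subset_of_nonneg (Finset.range_mono hi) (fun _ _ _ => Nat.cast_nonneg _)

/-- A sign change at `x` forces an exact hit of the level within one period. -/
theorem crossing (n : ℕ → ℕ) (m : ℕ) (hm : 0 < n m) (x ξ : ℝ)
    (h : (S n m x - ξ) * (S n (m + 1) x - ξ) < 0) :
    ∃ z i, |z - x| ≤ 2 * Real.pi / n m ∧ m ≤ i ∧ i ≤ m + 1 ∧ S n i z = ξ := by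
  have hn : (0 : ℝ) < n m := by exact_mod_cast hm
  have hpi := Real.pi_pos
  set j : ℤ := ⌊(n m : ℝ) * x / (2 * Real.pi)⌋ with hj
  have hj1 : (j : ℝ) * (2 * Real.pi) ≤ n m * x := by
    have := Int.floor_le ((n m : ℝ) * x / (2 * Real.pi))
    rwa [le_div_iff₀ (by positivity)] at this
  have hj2 : (n m : ℝ) * x < (j + 1) * (2 * Real.pi) := by
    have := Int.lt_floor_add_one ((n m : ℝ) * x / (2 * Real.pi))
    rwa [div_lt_iff₀ (by positivity)] at this
  -- general step by the intermediate value theorem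
  have ivt : ∀ i y, |y - x| ≤ 2 * Real.pi / n m → (S n i x - ξ) * (S n i y - ξ) ≤ 0 →
      ∃ z, |z - x| ≤ 2 * Real.pi / n m ∧ S n i z = ξ := by
    intro i y hy hs
    have h1 : ξ ∈ Set.uIcc (S n i x) (S n i y) := by
      rw [Set.mem_uIcc]
      by_contra hc
      push Not at hc
      obtain ⟨hc1, hc2⟩ := hc
      rcases lt_trichotomy (S n i x) ξ with h1 | h1 | h1
      · have h2 := hc1 h1.le
        nlinarith
      · have h2 := hc1 h1.le
        have h3 : ξ < S n i y ∨ S n i y ≤ ξ := lt_or_ge _ _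
        rcases h3 with h3 | h3
        · linarith
        · have := hc2 h3; linarith
      · have h3 : S n i y ≤ ξ ∨ ξ < S n i y := le_or_gt _ _
        rcases h3 with h3 | h3
        · have := hc2 h3; linarith
        · nlinarith
    obtain ⟨z, hz, hz'⟩ := intermediate_value_uIcc (continuous_S n i).continuousOn h1
    refine ⟨z, ?_, hz'⟩
    refine le_trans ?_ hy
    rw [Set.mem_uIcc] at hz
    rcases hz with ⟨h1, h2⟩ | ⟨h1, h2⟩
    · rw [abs_of_nonneg (by linarith), abs_of_nonneg (by linarith)]; linarith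
    · rw [abs_of_nonpos (by linarith), abs_of_nonpos (by linarith)]; linarith
  rcases mul_neg_iff.mp h with ⟨h1, h2⟩ | ⟨h1, h2⟩
  · -- S m x > ξ > S (m+1) x; take y with cos = 1
    set y : ℝ := (j : ℝ) * (2 * Real.pi) / n m with hy
    have hyn : (n m : ℝ) * y = j * (2 * Real.pi) := by rw [hy]; field_simp
    have hc : Real.cos ((n m : ℝ) * y) = 1 := by rw [hyn]; exact Real.cos_int_mul_two_pi j
    have hyx : |y - x| ≤ 2 * Real.pi / n m := by
      have h5 : |y - x| * n m = |(n m : ℝ) * y - n m * x| := by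
        rw [← mul_sub, abs_mul, abs_of_pos hn, mul_comm]
      rw [le_div_iff₀ hn, h5, hyn, abs_le]
      constructor <;> nlinarith
    by_cases hsy : S n m y ≤ ξ
    · obtain ⟨z, hz, hz'⟩ := ivt m y hyx (mul_nonpos_of_nonneg_of_nonpos h1.le (by linarith))
      exact ⟨z, m, hz, le_rfl, Nat.le_succ m, hz'⟩
    · push Not at hsy
      have h3 : ξ < S n (m + 1) y := by rw [S_succ, hc]; linarith
      obtain ⟨z, hz, hz'⟩ := ivt (m + 1) y hyx (mul_nonpos_of_nonpos_of_nonneg h2.le (by linarith))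
      exact ⟨z, m + 1, hz, Nat.le_succ m, le_rfl, hz'⟩
  · -- S m x < ξ < S (m+1) x; take y with cos = -1
    set y : ℝ := (Real.pi + j * (2 * Real.pi)) / n m with hy
    have hyn : (n m : ℝ) * y = Real.pi + j * (2 * Real.pi) := by rw [hy]; field_simp
    have hc : Real.cos ((n m : ℝ) * y) = -1 := by
      rw [hyn, Real.cos_add_int_mul_two_pi, Real.cos_pi]
    have hyx : |y - x| ≤ 2 * Real.pi / n m := by
      have h5 : |y - x| * n m = |(n m : ℝ) * y - n m * x| := by
        rw [← mul_sub, abs_mul, abs_of_pos hn, mul_comm]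
      rw [le_div_iff₀ hn, h5, hyn, abs_le]
      constructor <;> nlinarith
    by_cases hsy : ξ ≤ S n m y
    · obtain ⟨z, hz, hz'⟩ := ivt m y hyx (mul_nonpos_of_nonpos_of_nonneg h1.le (by linarith))
      exact ⟨z, m, hz, le_rfl, Nat.le_succ m, hz'⟩
    · push Not at hsy
      have h3 : S n (m + 1) y < ξ := by rw [S_succ, hc]; linarith
      obtain ⟨z, hz, hz'⟩ := ivt (m + 1) y hyx (mul_nonpos_of_nonneg_of_nonpos h2.le (by linarith))
      exact ⟨z, m + 1, hz, Nat.le_succ m, le_rfl, hz'⟩

theorem strictMono_n (n : ℕ → ℕ) (q : ℝ) (hq : 1 < q) (hn : ∀ k, 0 < n k)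
    (h : ∀ k, q * (n k : ℝ) ≤ (n (k + 1) : ℝ)) : StrictMono n := by
  refine strictMono_nat_of_lt_succ (fun k => ?_)
  have h1 : (0 : ℝ) < n k := by exact_mod_cast hn k
  have h2 : (n k : ℝ) < n (k + 1) := by nlinarith [h k]
  exact_mod_cast h2

/-- the set where the sums stay at distance at least `ε` from `ξ` from the index `M` on -/
def D (n : ℕ → ℕ) (ξ ε : ℝ) (M : ℕ) : Set ℝ := {x | ∀ m, M ≤ m → ε ≤ |S n m x - ξ|}

/-- Almost every point of `D` sees only finitely many sign changes. -/
theorem ae_sign (n : ℕ → ℕ) (q : ℝ) (hq : 1 < q) (hn : ∀ k, 0 < n k)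
    (h : ∀ k, q * (n k : ℝ) ≤ (n (k + 1) : ℝ)) (ξ ε : ℝ) (hε : 0 < ε) (M : ℕ) :
    ∀ᵐ x ∂(volume.restrict (D n ξ ε M)),
      ¬ ∃ᶠ m in atTop, (S n m x - ξ) * (S n (m + 1) x - ξ) < 0 := by
  have hpi := Real.pi_pos
  have hq1 : 0 < q - 1 := by linarith
  have hL : 0 < q / (q - 1) := div_pos (by linarith) hq1
  filter_upwards [Besicovitch.ae_tendsto_measure_inter_div volume (D n ξ ε M)] with x hx hfreq
  -- radii
  have hr : Tendsto (fun m : ℕ => 2 * Real.pi / (n m : ℝ)) atTop (𝓝[>] 0) := by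
    rw [tendsto_nhdsWithin_iff]
    constructor
    · have h1 : Tendsto (fun m : ℕ => (n m : ℝ)) atTop atTop :=
        tendsto_natCast_atTop_atTop.comp (strictMono_n n q hq hn h).tendsto_atTop
      exact Tendsto.div_atTop tendsto_const_nhds h1
    · refine Eventually.of_forall (fun m => ?_)
      have : (0 : ℝ) < n m := by exact_mod_cast hn m
      exact Set.mem_Ioi.mpr (by positivity)
  have hx' := hx.comp hr
  set κ : ℝ := min (ε / (q / (q - 1))) (2 * Real.pi) with hκ
  have hκ0 : 0 < κ := lt_min (by positivity) (by positivity)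
  have hκ1 : κ ≤ 2 * Real.pi := min_le_right _ _
  have hκ2 : κ ≤ ε / (q / (q - 1)) := min_le_left _ _
  -- for crossing indices the density is bounded
  have hbd : ∀ m, M ≤ m → (S n m x - ξ) * (S n (m + 1) x - ξ) < 0 →
      volume (D n ξ ε M ∩ Metric.closedBall x (2 * Real.pi / (n m : ℝ))) /
        volume (Metric.closedBall x (2 * Real.pi / (n m : ℝ))) ≤
        ENNReal.ofReal (1 - κ / (4 * Real.pi)) := by
    intro m hm hcross
    have hnm : (0 : ℝ) < n m := by exact_mod_cast hn m
    obtain ⟨z, i, hz, hmi, him, hSz⟩ := crossing n m (hn m) x ξ hcross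
    set r : ℝ := 2 * Real.pi / (n m : ℝ) with hrdef
    have hr0 : 0 < r := by positivity
    set ρ : ℝ := κ / n m with hρ
    have hρ0 : 0 < ρ := by positivity
    have hρr : ρ ≤ r := div_le_div_of_nonneg_right hκ1 hnm.le
    -- points close to z are not in D
    have hnot : ∀ w, |w - z| < ρ → w ∉ D n ξ ε M := by
      intro w hw hwD
      have h1 := hwD i (hm.trans hmi)
      rw [← hSz] at h1
      have h2 := S_lip' n q hq h m i him w z
      have h3 : q / (q - 1) * n m * |w - z| < q / (q - 1) * n m * ρ :=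
        mul_lt_mul_of_pos_left hw (by positivity)
      have h4 : q / (q - 1) * n m * ρ ≤ ε := by
        rw [hρ]
        calc q / (q - 1) * n m * (κ / n m) = κ * (q / (q - 1)) := by field_simp
          _ ≤ ε / (q / (q - 1)) * (q / (q - 1)) := mul_le_mul_of_nonneg_right hκ2 hL.le
          _ = ε := by field_simp
      linarith
    -- an interval of length ρ in the ball
    obtain ⟨a, ha1, ha2, ha3⟩ : ∃ a : ℝ, x - r ≤ a ∧ a + ρ ≤ x + r ∧
        ∀ w ∈ Set.Ioo a (a + ρ), w ∉ D n ξ ε M := by
      rw [abs_le] at hz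
      by_cases hzx : z ≤ x
      · refine ⟨z, by linarith, by linarith, fun w hw => hnot w ?_⟩
        rw [abs_lt]
        constructor <;> linarith [hw.1, hw.2]
      · push Not at hzx
        refine ⟨z - ρ, by linarith, by linarith, fun w hw => hnot w ?_⟩
        rw [abs_lt]
        constructor <;> linarith [hw.1, hw.2]
    have hsub : D n ξ ε M ∩ Metric.closedBall x r ⊆
        Set.Icc (x - r) (x + r) \ Set.Ioo a (a + ρ) := by
      rintro w ⟨hwD, hwB⟩
      rw [Real.closedBall_eq_Icc] at hwB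
      exact ⟨hwB, fun hw => ha3 w hw hwD⟩
    have hsub2 : Set.Ioo a (a + ρ) ⊆ Set.Icc (x - r) (x + r) := by
      intro w hw
      exact ⟨by linarith [hw.1], by linarith [hw.2]⟩
    have hvol : volume (Set.Icc (x - r) (x + r) \ Set.Ioo a (a + ρ)) =
        ENNReal.ofReal (2 * r - ρ) := by
      rw [measure_sdiff hsub2 measurableSet_Ioo.nullMeasurableSet (by simp)]
      rw [Real.volume_Icc, Real.volume_Ioo, ← ENNReal.ofReal_sub _ (by linarith)]
      congr 1
      ring
    have hvolB : volume (Metric.closedBall x r) = ENNReal.ofReal (2 * r) := Real.volume_closedBall x r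
    rw [hvolB]
    calc volume (D n ξ ε M ∩ Metric.closedBall x r) / ENNReal.ofReal (2 * r)
        ≤ ENNReal.ofReal (2 * r - ρ) / ENNReal.ofReal (2 * r) := by
          apply ENNReal.div_le_div_right
          rw [← hvol]
          exact measure_mono hsub
      _ = ENNReal.ofReal ((2 * r - ρ) / (2 * r)) := by
          rw [ENNReal.ofReal_div_of_pos (by positivity)]
      _ = ENNReal.ofReal (1 - κ / (4 * Real.pi)) := by
          congr 1
          rw [hρ, hrdef]
          field_simp
          ring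
  have hlt : ENNReal.ofReal (1 - κ / (4 * Real.pi)) < 1 := by
    rw [ENNReal.ofReal_lt_one]
    have : 0 < κ / (4 * Real.pi) := by positivity
    linarith
  have hev := hx'.eventually (lt_mem_nhds hlt)
  have hcontra := hfreq.and_eventually (hev.and (eventually_ge_atTop M))
  obtain ⟨m, hm1, hm2, hm3⟩ := hcontra.exists
  exact absurd (hbd m hm3 hm1) (not_le.mpr hm2)

end Pool.Agent.Helper5_lac
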