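import Pool.Agent.Helper5_lac.Bounds

/-! One-sided boundedness of the partial sums is impossible on a set of positive measure. -/

set_option autoImplicit false
set_option maxHeartbeats 4000000
open MeasureTheory Filter Finset Topology

namespace Pool.Agent.Helper5_lac

/-- weighted arithmetic-geometric mean bound for an integral of a product -/
theorem amgm_int (u : ℝ → ℂ) (v : ℝ → ℂ) (t U V : ℝ) (ht : 0 < t)
    (hu : IntervalIntegrable (fun x => ‖u x‖ ^ 2) volume 0 (2 * Real.pi))
    (hv : IntervalIntegrable (fun x => ‖v x‖ ^ 2) volume 0 (2 * Real.pi))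
    (huv : IntervalIntegrable (fun x => u x * v x) volume 0 (2 * Real.pi))
    (hU : ∫ x in (0:ℝ)..(2 * Real.pi), ‖u x‖ ^ 2 ≤ U)
    (hV : ∫ x in (0:ℝ)..(2 * Real.pi), ‖v x‖ ^ 2 ≤ V) :
    ‖∫ x in (0:ℝ)..(2 * Real.pi), u x * v x‖ ≤ t / 2 * U + 1 / (2 * t) * V := by
  have hpi := Real.pi_pos
  have h0 : (0:ℝ) ≤ 2 * Real.pi := by positivity
  refine (intervalIntegral.norm_integral_le_integral_norm h0).trans ?_
  have h1 : ∫ x in (0:ℝ)..(2 * Real.pi), ‖u x * v x‖ ≤
      ∫ x in (0:ℝ)..(2 * Real.pi), (t / 2 * ‖u x‖ ^ 2 + 1 / (2 * t) * ‖v x‖ ^ 2) := by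
    refine intervalIntegral.integral_mono_on h0 huv.norm
      ((hu.const_mul _).add (hv.const_mul _)) (fun x _ => ?_)
    rw [norm_mul]
    have h2 : 0 ≤ (t * ‖u x‖ - ‖v x‖) ^ 2 / (2 * t) := by positivity
    have h3 : (t * ‖u x‖ - ‖v x‖) ^ 2 / (2 * t) =
        t / 2 * ‖u x‖ ^ 2 + 1 / (2 * t) * ‖v x‖ ^ 2 - ‖u x‖ * ‖v x‖ := by
      field_simp
      ring
    linarith
  refine h1.trans ?_
  rw [intervalIntegral.integral_add (hu.const_mul _) (hv.const_mul _),
    intervalIntegral.integral_const_mul, intervalIntegral.integral_const_mul]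
  have h4 := mul_le_mul_of_nonneg_left hU (by positivity : 0 ≤ t / 2)
  have h5 := mul_le_mul_of_nonneg_left hV (by positivity : 0 ≤ 1 / (2 * t))
  linarith

/-- The partial sums are not bounded from one side on a set of positive measure. -/
theorem osc (n : ℕ → ℕ) (q : ℝ) (hq : 1 < q) (hn : ∀ k, 0 < n k)
    (h : ∀ k, q * (n k : ℝ) ≤ (n (k + 1) : ℝ)) (E : Set ℝ) (hE : MeasurableSet E)
    (σ : ℝ) (hσ : σ = 1 ∨ σ = -1) (C : ℝ) (hC : 0 ≤ C) (M : ℕ)
    (hEb : ∀ x ∈ E, ∀ m, M ≤ m → -C ≤ σ * S n m x) :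
    volume (E ∩ Set.Ioc 0 (2 * Real.pi)) = 0 := by
  classical
  by_contra hpos
  have hpi := Real.pi_pos
  have h0 : (0:ℝ) ≤ 2 * Real.pi := by positivity
  have hmono := strictMono_n n q hq hn h
  obtain ⟨r, hr0, hr⟩ := sub_props n q hq hn h
  have hr0' : (0 : ℝ) < r := by exact_mod_cast hr0
  -- the indicator
  set f : ℝ → ℂ := E.indicator (fun _ => (1 : ℂ)) with hf
  set fr : ℝ → ℝ := E.indicator (fun _ => (1 : ℝ)) with hfr
  have hffr : ∀ x, f x = (fr x : ℂ) := by
    intro x
    simp only [hf, hfr, Set.indicator_apply]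
    split_ifs <;> simp
  have hfr0 : ∀ x, 0 ≤ fr x := fun x => by
    simp only [hfr, Set.indicator_apply]; split_ifs <;> norm_num
  have hfr1 : ∀ x, fr x ≤ 1 := fun x => by
    simp only [hfr, Set.indicator_apply]; split_ifs <;> norm_num
  have hfm : Measurable f := measurable_const.indicator hE
  have hfrm : Measurable fr := measurable_const.indicator hE
  have hfL2 : MemLp f 2 (volume.restrict (Set.Ioc 0 (2 * Real.pi))) := by
    refine MemLp.of_bound hfm.aestronglyMeasurable 1 (Eventually.of_forall (fun x => ?_))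
    rw [hffr, Complex.norm_real, Real.norm_of_nonneg (hfr0 x)]
    exact hfr1 x
  -- products with continuous functions are integrable
  have hint : ∀ v : ℝ → ℂ, Continuous v →
      IntervalIntegrable (fun x => f x * v x) volume 0 (2 * Real.pi) := by
    intro v hv
    refine (hv.norm.intervalIntegrable 0 (2 * Real.pi)).mono_fun' ?_ ?_
    · exact (hfm.mul hv.measurable).aestronglyMeasurable
    · refine Eventually.of_forall (fun x => ?_)
      simp only [norm_mul]
      rw [hffr, Complex.norm_real, Real.norm_of_nonneg (hfr0 x)]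
      exact mul_le_of_le_one_left (norm_nonneg _) (hfr1 x)
  set κ : ℝ := ∫ x in (0:ℝ)..(2 * Real.pi), fr x with hκ
  have hκ0 : 0 < κ := by
    rw [hκ, intervalIntegral.integral_of_le h0]
    change 0 < ∫ x in Set.Ioc 0 (2 * Real.pi), E.indicator 1 x
    rw [integral_indicator_one hE, Measure.real, Measure.restrict_apply hE]
    refine ENNReal.toReal_pos hpos ?_
    refine ne_top_of_le_ne_top (b := volume (Set.Ioc 0 (2 * Real.pi))) ?_
      (measure_mono Set.inter_subset_right)
    rw [Real.volume_Ioc]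
    exact ENNReal.ofReal_ne_top
  set W : ℝ := 7 / 4 + Real.pi / 2 + 3 * Real.pi * r with hW
  have hW0 : 0 < W := by positivity
  set η : ℝ := κ / (4 * W) with hη
  have hη0 : 0 < η := by positivity
  -- approximation by a trigonometric polynomial
  obtain ⟨s, c, hs0, hsc⟩ : ∃ (s : Finset ℤ) (c : ℤ → ℂ), 0 ∈ s ∧
      ∫ x in (0:ℝ)..(2 * Real.pi), ‖f x - ∑ N ∈ s, c N * e N x‖ ^ 2 ≤ η ^ 2 := by
    obtain ⟨s, c, hsc⟩ := exists_trig_approx f hfL2 (η ^ 2) (by positivity)
    refine ⟨insert 0 s, fun N => if N ∈ s then c N else 0, Finset.mem_insert_self _ _, ?_⟩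
    have : ∀ x, ∑ N ∈ insert 0 s, (if N ∈ s then c N else 0) * e N x = ∑ N ∈ s, c N * e N x := by
      intro x
      by_cases hz : (0:ℤ) ∈ s
      · rw [Finset.insert_eq_of_mem hz]
        exact Finset.sum_congr rfl (fun N hN => by rw [if_pos hN])
      · rw [Finset.sum_insert hz, if_neg hz, zero_mul, zero_add]
        exact Finset.sum_congr rfl (fun N hN => by rw [if_pos hN])
    simp_rw [this]
    exact hsc
  set φ : ℝ → ℂ := fun x => ∑ N ∈ s, c N * e N x with hφ
  have hφc : Continuous φ := by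
    rw [hφ]
    exact continuous_finsetSum _ (fun N _ => continuous_const.mul (continuous_e N))
  set u : ℝ → ℂ := fun x => f x - φ x with hu
  have huv : ∀ v : ℝ → ℂ, Continuous v →
      IntervalIntegrable (fun x => u x * v x) volume 0 (2 * Real.pi) := by
    intro v hv
    have h1 := (hint v hv).sub ((hφc.mul hv).intervalIntegrable 0 (2 * Real.pi))
    refine h1.congr (fun x _ => ?_)
    simp only [hu, Pi.sub_apply, Pi.mul_apply]
    ring
  have husq : IntervalIntegrable (fun x => ‖u x‖ ^ 2) volume 0 (2 * Real.pi) := by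
    obtain ⟨B, hB⟩ : ∃ B, ∀ x ∈ Set.uIcc 0 (2 * Real.pi), ‖φ x‖ ≤ B := by
      obtain ⟨B, hB⟩ := (isCompact_uIcc (a := (0:ℝ)) (b := 2 * Real.pi)).exists_bound_of_continuousOn
        hφc.continuousOn
      exact ⟨B, hB⟩
    refine IntervalIntegrable.mono_fun' (g := fun _ => (1 + B) ^ 2) (by simp) ?_ ?_
    · exact ((hfm.sub hφc.measurable).norm.pow_const 2).aestronglyMeasurable
    · rw [EventuallyLE, ae_restrict_iff' measurableSet_uIoc]
      refine Eventually.of_forall (fun x hx => ?_)
      rw [Real.norm_of_nonneg (by positivity)]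
      have h1 : ‖u x‖ ≤ 1 + B := by
        refine (norm_sub_le _ _).trans ?_
        have h2 : ‖f x‖ ≤ 1 := by
          rw [hffr, Complex.norm_real, Real.norm_of_nonneg (hfr0 x)]; exact hfr1 x
        have h3 := hB x (Set.uIoc_subset_uIcc hx)
        linarith
      exact pow_le_pow_left₀ (norm_nonneg _) h1 2
  have huU : ∫ x in (0:ℝ)..(2 * Real.pi), ‖u x‖ ^ 2 ≤ η ^ 2 := hsc
  -- splitting an integral against a continuous function
  have hsplit : ∀ v : ℝ → ℂ, Continuous v → ∫ x in (0:ℝ)..(2 * Real.pi), f x * v x =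
      (∑ N ∈ s, c N * ∫ x in (0:ℝ)..(2 * Real.pi), e N x * v x) +
        ∫ x in (0:ℝ)..(2 * Real.pi), u x * v x := by
    intro v hv
    have hI : ∀ N ∈ s, IntervalIntegrable (fun x => c N * (e N x * v x)) volume 0 (2 * Real.pi) :=
      fun N _ => (continuous_const.mul ((continuous_e N).mul hv)).intervalIntegrable _ _
    have h1 : ∀ N ∈ s, c N * ∫ x in (0:ℝ)..(2 * Real.pi), e N x * v x =
        ∫ x in (0:ℝ)..(2 * Real.pi), c N * (e N x * v x) := by
      intro N _
      rw [intervalIntegral.integral_const_mul]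
    rw [Finset.sum_congr rfl h1, ← intervalIntegral.integral_finsetSum hI,
      ← intervalIntegral.integral_add]
    · refine intervalIntegral.integral_congr (fun x _ => ?_)
      simp only [hu, hφ]
      rw [sub_mul, Finset.sum_mul]
      have : ∑ N ∈ s, c N * (e N x * v x) = ∑ i ∈ s, c i * e i x * v x :=
        Finset.sum_congr rfl (fun N _ => by ring)
      rw [this]
      ring
    · exact (continuous_finsetSum _ (fun N _ => continuous_const.mul
        ((continuous_e N).mul hv))).intervalIntegrable _ _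
    · exact huv v hv
  -- the constant coefficient
  have hc0 : κ - η * (1 / 2 + Real.pi) ≤ 2 * Real.pi * ‖c 0‖ := by
    have h1 := hsplit (fun _ => 1) continuous_const
    have h2 : ∑ N ∈ s, c N * ∫ x in (0:ℝ)..(2 * Real.pi), e N x * 1 = 2 * Real.pi * c 0 := by
      rw [Finset.sum_eq_single_of_mem 0 hs0]
      · simp only [mul_one]
        rw [integral_e_zero]; ring
      · intro N _ hN
        simp only [mul_one]
        rw [integral_e N hN, mul_zero]
    have h3 : ∫ x in (0:ℝ)..(2 * Real.pi), f x * 1 = (κ : ℂ) := by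
      simp only [mul_one]
      rw [hκ, ← intervalIntegral.integral_ofReal]
      exact intervalIntegral.integral_congr (fun x _ => hffr x)
    have h4 : ‖∫ x in (0:ℝ)..(2 * Real.pi), u x * 1‖ ≤ 1 / η / 2 * η ^ 2 + 1 / (2 * (1 / η)) *
        (2 * Real.pi) := by
      refine amgm_int u (fun _ => 1) (1 / η) _ _ (by positivity) husq (by simp)
        (huv _ continuous_const) huU ?_
      simp
    rw [h2, h3] at h1
    have h5 : (κ : ℂ) - 2 * Real.pi * c 0 = ∫ x in (0:ℝ)..(2 * Real.pi), u x * 1 := by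
      rw [h1]; ring
    have h6 : ‖(κ : ℂ)‖ = κ := by rw [Complex.norm_real, Real.norm_of_nonneg hκ0.le]
    have h7 : ‖(2 * Real.pi * c 0 : ℂ)‖ = 2 * Real.pi * ‖c 0‖ := by
      rw [norm_mul, norm_mul, Complex.norm_real, Real.norm_of_nonneg hpi.le]
      simp
    have h8 : ‖(κ : ℂ)‖ - ‖(2 * Real.pi * c 0 : ℂ)‖ ≤ ‖(κ : ℂ) - 2 * Real.pi * c 0‖ :=
      norm_sub_norm_le _ _
    rw [h6, h7, h5] at h8
    have h9 : 1 / η / 2 * η ^ 2 + 1 / (2 * (1 / η)) * (2 * Real.pi) = η * (1 / 2 + Real.pi) := by
      field_simp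
    linarith
  -- constants for the nonzero frequencies
  have hKex : ∀ N : ℤ, ∃ K : ℕ, N ≠ 0 → ∀ b : ℂ, ‖b‖ ≤ 1 → ∀ J m : ℕ,
      ‖T n (fun j => n (r * j)) b J m N‖ ≤ 2 * Real.pi * K + 2 * Real.pi * ‖b‖ ^ 2 * m := by
    intro N
    by_cases hN : N = 0
    · exact ⟨0, fun h => absurd hN h⟩
    · obtain ⟨K, hK⟩ := T_bound n q hq hn h r hr N hN
      exact ⟨K, fun _ => hK⟩
  choose K hK using hKex
  set C1 : ℝ := ∑ N ∈ s.erase 0, ‖c N‖ * (2 * Real.pi * K N + Real.pi * r / 2) with hC1
  -- main estimate for every J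
  have hmain : ∀ J : ℕ, 0 < J → M ≤ r * J →
      Real.sqrt J * (κ / 4) ≤ 3 * C1 + 8 * Real.pi * C + ‖c 0‖ * (Real.pi * r / 2) := by
    intro J hJ hMJ
    have hJ' : (0 : ℝ) < J := by exact_mod_cast hJ
    have hsq : (0 : ℝ) < Real.sqrt J := Real.sqrt_pos.mpr hJ'
    have hsqJ : Real.sqrt J * Real.sqrt J = J := Real.mul_self_sqrt hJ'.le
    obtain ⟨hb2, hb1⟩ := norm_b J hJ
    set b : ℂ := Complex.I / (2 * Real.sqrt J) with hb
    set l : ℕ → ℕ := fun j => n (r * j) with hl
    have hScont : Continuous (fun x => (S n (r * J) x : ℂ)) :=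
      Complex.continuous_ofReal.comp (continuous_S n _)
    have hSG : Continuous (fun x => (S n (r * J) x : ℂ) * G l b J x) :=
      hScont.mul (continuous_G l b J)
    have hS2 := integral_S_sq n hmono.injective hn (r * J)
    push_cast at hS2
    have hSnorm : ∀ x, ‖(S n (r * J) x : ℂ)‖ ^ 2 = (S n (r * J) x) ^ 2 := by
      intro x
      rw [Complex.norm_real, Real.norm_eq_abs, sq_abs]
    -- (1) lower bound
    have hlow : ‖c 0‖ * (Real.pi * Real.sqrt J - Real.pi * r / 2) - C1 -
        Real.sqrt J * η * (1 / 2 + 2 * Real.pi * r) ≤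
        ‖∫ x in (0:ℝ)..(2 * Real.pi), f x * ((S n (r * J) x : ℂ) * G l b J x)‖ := by
      rw [hsplit _ hSG]
      have h1 : ∑ N ∈ s, c N * ∫ x in (0:ℝ)..(2 * Real.pi),
          e N x * ((S n (r * J) x : ℂ) * G l b J x) =
          c 0 * T n l b J (r * J) 0 + ∑ N ∈ s.erase 0, c N * T n l b J (r * J) N := by
        rw [← Finset.add_sum_erase s _ hs0]
        rfl
      have h2 : ‖∫ x in (0:ℝ)..(2 * Real.pi), u x * ((S n (r * J) x : ℂ) * G l b J x)‖ ≤
          Real.sqrt J / η / 2 * η ^ 2 + 1 / (2 * (Real.sqrt J / η)) *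
            (4 * (Real.pi * (r * J))) := by
        refine amgm_int u _ (Real.sqrt J / η) _ _ (by positivity) husq
          ((hSG.norm.pow 2).intervalIntegrable _ _) (huv _ hSG) huU ?_
        rw [← hS2, ← intervalIntegral.integral_const_mul]
        refine intervalIntegral.integral_mono_on h0 ((hSG.norm.pow 2).intervalIntegrable _ _)
          (((continuous_S n _).pow 2).const_mul 4 |>.intervalIntegrable _ _) (fun x _ => ?_)
        rw [norm_mul, mul_pow, hSnorm]
        have h3 := G_norm_le l J hJ x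
        have h4 : ‖G l b J x‖ ^ 2 ≤ 2 ^ 2 := pow_le_pow_left₀ (norm_nonneg _) h3 2
        nlinarith [sq_nonneg (S n (r * J) x)]
      have h2' : Real.sqrt J / η / 2 * η ^ 2 + 1 / (2 * (Real.sqrt J / η)) *
            (4 * (Real.pi * (r * J))) = Real.sqrt J * η * (1 / 2 + 2 * Real.pi * r) := by
        have e1 : 1 / (2 * (Real.sqrt J / η)) * (4 * (Real.pi * (r * J))) =
            2 * Real.pi * r * η * (J / Real.sqrt J) := by field_simp; ring
        rw [e1, Real.div_sqrt]
        field_simp
        try ring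
      rw [h2'] at h2
      have h5 : Real.pi * Real.sqrt J - Real.pi * r / 2 ≤ ‖T n l b J (r * J) 0‖ := by
        have h6 := T_zero n q hq hn h r hr0 hr b hb1 J
        have h7 : ‖((J : ℂ) * (2 * Real.pi * b))‖ = Real.pi * Real.sqrt J := by
          have h8 : ‖b‖ = 1 / (2 * Real.sqrt J) := by
            have h9 : ‖b‖ ^ 2 = (1 / (2 * Real.sqrt J)) ^ 2 := by
              rw [hb2, div_pow, mul_pow, Real.sq_sqrt hJ'.le]; norm_num
            exact (pow_left_inj₀ (norm_nonneg _) (by positivity) (by norm_num)).mp h9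
          rw [norm_mul, norm_mul, norm_mul, h8, Complex.norm_real, Real.norm_of_nonneg hpi.le]
          simp only [Complex.norm_natCast, Complex.norm_ofNat]
          nth_rw 1 [← hsqJ]
          field_simp
        have h8 : 2 * Real.pi * ‖b‖ ^ 2 * (r * J) = Real.pi * r / 2 := by
          rw [hb2]; field_simp; norm_num
        rw [h8] at h6
        have h9 := norm_sub_norm_le ((J : ℂ) * (2 * Real.pi * b)) (T n l b J (r * J) 0)
        rw [norm_sub_rev, h7] at h9
        linarith
      have h10 : ‖∑ N ∈ s.erase 0, c N * T n l b J (r * J) N‖ ≤ C1 := by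
        refine (norm_sum_le _ _).trans (Finset.sum_le_sum (fun N hN => ?_))
        rw [norm_mul]
        refine mul_le_mul_of_nonneg_left ?_ (norm_nonneg _)
        have h11 := hK N (Finset.ne_of_mem_erase hN) b hb1 J (r * J)
        have h12 : 2 * Real.pi * ‖b‖ ^ 2 * ((r * J : ℕ) : ℝ) = Real.pi * r / 2 := by
          rw [hb2]; push_cast; field_simp; norm_num
        rw [h12] at h11
        exact h11
      have h13 : ‖c 0 * T n l b J (r * J) 0‖ ≥ ‖c 0‖ * (Real.pi * Real.sqrt J - Real.pi * r / 2) := by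
        rw [norm_mul]
        exact mul_le_mul_of_nonneg_left h5 (norm_nonneg _)
      rw [h1]
      have h14 : ‖c 0 * T n l b J (r * J) 0‖ -
          ‖∑ N ∈ s.erase 0, c N * T n l b J (r * J) N‖ -
          ‖∫ x in (0:ℝ)..(2 * Real.pi), u x * ((S n (r * J) x : ℂ) * G l b J x)‖ ≤
          ‖c 0 * T n l b J (r * J) 0 + ∑ N ∈ s.erase 0, c N * T n l b J (r * J) N +
          ∫ x in (0:ℝ)..(2 * Real.pi), u x * ((S n (r * J) x : ℂ) * G l b J x)‖ := by
        have h15 := norm_sub_le_norm_add (c 0 * T n l b J (r * J) 0 +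
          ∑ N ∈ s.erase 0, c N * T n l b J (r * J) N)
          (∫ x in (0:ℝ)..(2 * Real.pi), u x * ((S n (r * J) x : ℂ) * G l b J x))
        have h16 := norm_sub_le_norm_add (c 0 * T n l b J (r * J) 0)
          (∑ N ∈ s.erase 0, c N * T n l b J (r * J) N)
        linarith
      linarith
    -- (2) upper bound through the first moment
    have hup1 : ‖∫ x in (0:ℝ)..(2 * Real.pi), f x * ((S n (r * J) x : ℂ) * G l b J x)‖ ≤
        2 * (‖∫ x in (0:ℝ)..(2 * Real.pi), f x * (S n (r * J) x : ℂ)‖ + 4 * Real.pi * C) := by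
      have hfSint : IntervalIntegrable (fun x => fr x * S n (r * J) x) volume 0 (2 * Real.pi) := by
        refine ((continuous_S n (r * J)).norm.intervalIntegrable 0 (2 * Real.pi)).mono_fun' ?_ ?_
        · exact (hfrm.mul (continuous_S n _).measurable).aestronglyMeasurable
        · refine Eventually.of_forall (fun x => ?_)
          simp only [norm_mul]
          rw [Real.norm_of_nonneg (hfr0 x)]
          exact mul_le_of_le_one_left (norm_nonneg _) (hfr1 x)
      have h1 : ‖∫ x in (0:ℝ)..(2 * Real.pi), f x * ((S n (r * J) x : ℂ) * G l b J x)‖ ≤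
          ∫ x in (0:ℝ)..(2 * Real.pi), (2 * (σ * (fr x * S n (r * J) x)) + 4 * C) := by
        refine (intervalIntegral.norm_integral_le_integral_norm h0).trans ?_
        refine intervalIntegral.integral_mono_on h0 (hint _ hSG).norm
          (((hfSint.const_mul _).const_mul _).add (by simp)) (fun x _ => ?_)
        rw [norm_mul, norm_mul, hffr, Complex.norm_real, Real.norm_of_nonneg (hfr0 x),
          Complex.norm_real, Real.norm_eq_abs]
        have h3 := G_norm_le l J hJ x
        have h4 : |S n (r * J) x| * ‖G l b J x‖ ≤ |S n (r * J) x| * 2 :=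
          mul_le_mul_of_nonneg_left h3 (abs_nonneg _)
        by_cases hxE : x ∈ E
        · have h5 := hEb x hxE (r * J) hMJ
          have h6 : fr x = 1 := by simp [hfr, hxE]
          rw [h6, one_mul, one_mul]
          have h7 : |S n (r * J) x| ≤ σ * S n (r * J) x + 2 * C := by
            rcases hσ with rfl | rfl
            · rw [abs_le]; constructor <;> linarith
            · rw [abs_le]; constructor <;> linarith
          linarith
        · have h6 : fr x = 0 := by simp [hfr, hxE]
          rw [h6]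
          simp
          positivity
      refine h1.trans ?_
      rw [intervalIntegral.integral_add ((hfSint.const_mul _).const_mul _) (by simp),
        intervalIntegral.integral_const_mul, intervalIntegral.integral_const_mul]
      have h2 : σ * ∫ x in (0:ℝ)..(2 * Real.pi), fr x * S n (r * J) x ≤
          ‖∫ x in (0:ℝ)..(2 * Real.pi), f x * (S n (r * J) x : ℂ)‖ := by
        have h3 : ∫ x in (0:ℝ)..(2 * Real.pi), f x * (S n (r * J) x : ℂ) =
            ((∫ x in (0:ℝ)..(2 * Real.pi), fr x * S n (r * J) x : ℝ) : ℂ) := by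
          rw [← intervalIntegral.integral_ofReal]
          refine intervalIntegral.integral_congr (fun x _ => ?_)
          rw [hffr]
          push_cast
          rfl
        rw [h3, Complex.norm_real, Real.norm_eq_abs]
        rcases hσ with rfl | rfl
        · rw [one_mul]; exact le_abs_self _
        · rw [neg_one_mul]; exact neg_le_abs _
      simp only [intervalIntegral.integral_const, sub_zero, smul_eq_mul]
      nlinarith
    have hup2 : ‖∫ x in (0:ℝ)..(2 * Real.pi), f x * (S n (r * J) x : ℂ)‖ ≤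
        C1 + Real.sqrt J * η * (1 / 2 + Real.pi * r / 2) := by
      rw [hsplit _ hScont]
      have hTz : ∀ N : ℤ, ∫ x in (0:ℝ)..(2 * Real.pi), e N x * (S n (r * J) x : ℂ) =
          T n l 0 0 (r * J) N := by
        intro N
        unfold T G
        simp
      have h1 : ‖∑ N ∈ s, c N * ∫ x in (0:ℝ)..(2 * Real.pi), e N x * (S n (r * J) x : ℂ)‖ ≤ C1 := by
        rw [← Finset.add_sum_erase s _ hs0, hTz 0]
        have h2 : T n l 0 0 (r * J) 0 = 0 := by
          rw [T_eq]
          refine Finset.sum_eq_zero (fun k _ => ?_)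
          have := hn k
          rw [A_zero, A_zero, if_neg (by omega), if_neg (by omega)]
          simp
        rw [h2, mul_zero, zero_add]
        refine (norm_sum_le _ _).trans (Finset.sum_le_sum (fun N hN => ?_))
        rw [norm_mul, hTz N]
        refine mul_le_mul_of_nonneg_left ?_ (norm_nonneg _)
        have h11 := hK N (Finset.ne_of_mem_erase hN) 0 (by simp) 0 (r * J)
        have h12 : 0 ≤ Real.pi * r / 2 := by positivity
        simp only [norm_zero, ne_eq, OfNat.ofNat_ne_zero, not_false_eq_true, zero_pow, mul_zero,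
          zero_mul, add_zero] at h11
        linarith
      have h2 : ‖∫ x in (0:ℝ)..(2 * Real.pi), u x * (S n (r * J) x : ℂ)‖ ≤
          Real.sqrt J / η / 2 * η ^ 2 + 1 / (2 * (Real.sqrt J / η)) * (Real.pi * (r * J)) := by
        refine amgm_int u _ (Real.sqrt J / η) _ _ (by positivity) husq
          ((hScont.norm.pow 2).intervalIntegrable _ _) (huv _ hScont) huU ?_
        rw [← hS2]
        refine le_of_eq (intervalIntegral.integral_congr (fun x _ => hSnorm x))
      have h2' : Real.sqrt J / η / 2 * η ^ 2 + 1 / (2 * (Real.sqrt J / η)) *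
            (Real.pi * (r * J)) = Real.sqrt J * η * (1 / 2 + Real.pi * r / 2) := by
        have e1 : 1 / (2 * (Real.sqrt J / η)) * (Real.pi * (r * J)) =
            Real.pi * r / 2 * η * (J / Real.sqrt J) := by field_simp
        rw [e1, Real.div_sqrt]
        field_simp
        try ring
      rw [h2'] at h2
      exact (norm_add_le _ _).trans (add_le_add h1 h2)
    -- (3) combination
    have hηW : η * W = κ / 4 := by rw [hη]; field_simp
    have h20 : Real.sqrt J * (κ / 2 - η * W) ≤
        3 * C1 + 8 * Real.pi * C + ‖c 0‖ * (Real.pi * r / 2) := by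
      have h21 : Real.sqrt J * ((κ - η * (1 / 2 + Real.pi)) / 2) ≤
          ‖c 0‖ * (Real.pi * Real.sqrt J) := by
        have := mul_le_mul_of_nonneg_left hc0 hsq.le
        nlinarith
      rw [hW]
      nlinarith
    rw [hηW] at h20
    have h22 : κ / 2 - κ / 4 = κ / 4 := by ring
    rw [h22] at h20
    exact h20
  -- contradiction for large J
  set B : ℝ := 3 * C1 + 8 * Real.pi * C + ‖c 0‖ * (Real.pi * r / 2) with hB
  obtain ⟨J0, hJ0⟩ := exists_nat_gt ((B / (κ / 4)) ^ 2)
  have hJ1 := hmain (J0 + M + 1) (by omega) (by nlinarith)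
  have h30 : Real.sqrt ((J0 + M + 1 : ℕ) : ℝ) ≤ B / (κ / 4) := by
    rw [le_div_iff₀ (by positivity)]; exact hJ1
  have h31 : ((J0 + M + 1 : ℕ) : ℝ) ≤ (B / (κ / 4)) ^ 2 := by
    calc ((J0 + M + 1 : ℕ) : ℝ) = Real.sqrt ((J0 + M + 1 : ℕ) : ℝ) ^ 2 :=
          (Real.sq_sqrt (Nat.cast_nonneg _)).symm
      _ ≤ (B / (κ / 4)) ^ 2 := pow_le_pow_left₀ (Real.sqrt_nonneg _) h30 2
  push_cast at h31
  have h32 : (0:ℝ) ≤ M := Nat.cast_nonneg _
  linarith

end Pool.Agent.Helper5_lac
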