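import Pool.Agent.Helper5_lac.Cross

/-! Bounded Riesz products with imaginary coefficients and their correlation with the partial sums
of a lacunary cosine series. -/

set_option autoImplicit false
open MeasureTheory Filter Finset Topology

namespace Pool.Agent.Helper5_lac

/-- the character `e^{iNx}` -/
noncomputable def e (N : ℤ) (x : ℝ) : ℂ := Complex.exp ((N : ℂ) * x * Complex.I)

theorem continuous_e (N : ℤ) : Continuous (e N) := by
  unfold e
  fun_prop

theorem e_add (M N : ℤ) (x : ℝ) : e (M + N) x = e M x * e N x := by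
  unfold e
  rw [← Complex.exp_add]
  congr 1
  push_cast
  ring

theorem norm_e (N : ℤ) (x : ℝ) : ‖e N x‖ = 1 := by
  unfold e
  have : (N : ℂ) * x * Complex.I = ((N * x : ℝ) : ℂ) * Complex.I := by push_cast; ring
  rw [this]
  exact Complex.norm_exp_ofReal_mul_I _

theorem cos_eq (k : ℕ) (x : ℝ) :
    ((Real.cos ((k : ℝ) * x) : ℝ) : ℂ) = (e k x + e (-k) x) / 2 := by
  unfold e
  push_cast
  rw [Complex.cos]
  congr 3
  ring

theorem integral_e_zero : ∫ x in (0:ℝ)..(2 * Real.pi), e 0 x = 2 * Real.pi := by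
  simp [e]

theorem integral_e (N : ℤ) (hN : N ≠ 0) : ∫ x in (0:ℝ)..(2 * Real.pi), e N x = 0 := by
  have hc : ((N : ℂ) * Complex.I) ≠ 0 := by
    apply mul_ne_zero _ Complex.I_ne_zero
    exact_mod_cast hN
  have h := integral_exp_mul_complex (a := 0) (b := 2 * Real.pi) hc
  have h2 : ∀ x : ℝ, e N x = Complex.exp ((N : ℂ) * Complex.I * x) := by
    intro x; unfold e; congr 1; ring
  simp_rw [h2]
  rw [h]
  have h3 : Complex.exp ((N : ℂ) * Complex.I * ((2 * Real.pi : ℝ) : ℂ)) = 1 := by
    have := Complex.exp_int_mul_two_pi_mul_I N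
    rw [← this]
    congr 1
    push_cast
    ring
  rw [h3]
  simp

/-- the Riesz product `∏_{j<J} (1 + 2 b cos (l_j x))` -/
noncomputable def G (l : ℕ → ℕ) (b : ℂ) (J : ℕ) (x : ℝ) : ℂ :=
  ∏ j ∈ range J, (1 + 2 * b * (Real.cos ((l j : ℝ) * x) : ℂ))

theorem continuous_G (l : ℕ → ℕ) (b : ℂ) (J : ℕ) : Continuous (G l b J) := by
  unfold G
  refine continuous_finsetProd _ (fun j _ => ?_)
  fun_prop

/-- the correlations of the Riesz product with the characters -/
noncomputable def A (l : ℕ → ℕ) (b : ℂ) (J : ℕ) (w : ℤ) : ℂ :=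
  ∫ x in (0:ℝ)..(2 * Real.pi), e w x * G l b J x

theorem A_succ (l : ℕ → ℕ) (b : ℂ) (J : ℕ) (w : ℤ) :
    A l b (J + 1) w = A l b J w + b * (A l b J (w + l J) + A l b J (w - l J)) := by
  unfold A
  have hI : ∀ v : ℤ, IntervalIntegrable (fun x => e v x * G l b J x) volume 0 (2 * Real.pi) :=
    fun v => ((continuous_e v).mul (continuous_G l b J)).intervalIntegrable _ _
  rw [← intervalIntegral.integral_add (hI _) (hI _), ← intervalIntegral.integral_const_mul,
    ← intervalIntegral.integral_add (hI _)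
      ((((hI _).add (hI _))).const_mul b)]
  refine intervalIntegral.integral_congr (fun x _ => ?_)
  simp only [G, Finset.prod_range_succ]
  rw [cos_eq, sub_eq_add_neg w, e_add, e_add]
  ring

theorem A_zero (l : ℕ → ℕ) (b : ℂ) (w : ℤ) : A l b 0 w = if w = 0 then (2 * Real.pi : ℂ) else 0 := by
  unfold A G
  simp only [Finset.range_zero, Finset.prod_empty, mul_one]
  split_ifs with h
  · rw [h, integral_e_zero]
  · exact integral_e w h

/-- The Fourier coefficients of the Riesz product of a sequence with ratio at least `3`. -/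
theorem A_props (l : ℕ → ℕ) (hl0 : 0 < l 0) (hl : ∀ j, 3 * l j ≤ l (j + 1)) (b : ℂ) (hb : ‖b‖ ≤ 1)
    (J : ℕ) :
    2 * (∑ j ∈ range J, l j) < l J ∧
    (∀ w : ℤ, (∑ j ∈ range J, l j) < w.natAbs → A l b J w = 0) ∧
    A l b J 0 = 2 * Real.pi ∧
    (∀ j, j < J → A l b J (l j) = 2 * Real.pi * b ∧ A l b J (-(l j : ℤ)) = 2 * Real.pi * b) ∧
    (∀ w : ℤ, w ≠ 0 → (∀ j, j < J → w.natAbs ≠ l j) → ‖A l b J w‖ ≤ 2 * Real.pi * ‖b‖ ^ 2) := by
  have hpi := Real.pi_pos
  have hb0 := norm_nonneg b
  induction J with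
  | zero =>
    refine ⟨by simpa using hl0, ?_, ?_, ?_, ?_⟩
    · intro w hw
      rw [A_zero, if_neg]
      rintro rfl
      simp at hw
    · rw [A_zero, if_pos rfl]
    · intro j hj
      exact absurd hj (Nat.not_lt_zero j)
    · intro w hw _
      rw [A_zero, if_neg hw]
      simp only [norm_zero]
      positivity
  | succ J ih =>
    obtain ⟨h1, h2, h3, h4, h5⟩ := ih
    set D : ℕ := ∑ j ∈ range J, l j with hD
    have hDs : ∑ j ∈ range (J + 1), l j = D + l J := by rw [Finset.sum_range_succ]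
    have hle : ∀ j, j < J → l j ≤ D := fun j hj =>
      Finset.single_le_sum (f := l) (fun _ _ => Nat.zero_le _) (Finset.mem_range.mpr hj)
    have hlJ := hl J
    refine ⟨by omega, ?_, ?_, ?_, ?_⟩
    · intro w hw
      rw [hDs] at hw
      rw [A_succ, h2 w (by omega), h2 (w + l J) (by omega), h2 (w - l J) (by omega)]
      simp
    · rw [A_succ, h3, h2 (0 + l J) (by omega), h2 (0 - l J) (by omega)]
      simp
    · intro j hj
      rcases Nat.lt_succ_iff_lt_or_eq.mp hj with hj' | rfl
      · obtain ⟨h6, h7⟩ := h4 j hj'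
        have := hle j hj'
        constructor
        · rw [A_succ, h6, h2 (l j + l J) (by omega), h2 (l j - l J) (by omega)]
          simp
        · rw [A_succ, h7, h2 (-(l j : ℤ) + l J) (by omega), h2 (-(l j : ℤ) - l J) (by omega)]
          simp
      · constructor
        · rw [A_succ, h2 (l j) (by omega), h2 ((l j : ℤ) + l j) (by omega), sub_self, h3]
          ring
        · rw [A_succ, h2 (-(l j : ℤ)) (by omega), h2 (-(l j : ℤ) - l j) (by omega),
            neg_add_cancel, h3]
          ring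
    · intro w hw hwj
      have hwJ := hwj J (Nat.lt_succ_self J)
      -- a bound used for the outer zones
      have key : ∀ v : ℤ, v ≠ 0 → ‖b * A l b J v‖ ≤ 2 * Real.pi * ‖b‖ ^ 2 := by
        intro v hv
        rw [norm_mul]
        by_cases hex : ∃ j, j < J ∧ v.natAbs = l j
        · obtain ⟨j, hj, hvj⟩ := hex
          obtain ⟨h6, h7⟩ := h4 j hj
          have hval : A l b J v = 2 * Real.pi * b := by
            have h : v = (l j : ℤ) ∨ v = -(l j : ℤ) := by omega
            rcases h with h | h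
            · rw [h]; exact h6
            · rw [h]; exact h7
          rw [hval, norm_mul]
          have : ‖(2 * Real.pi : ℂ)‖ = 2 * Real.pi := by
            rw [norm_mul, Complex.norm_real, Real.norm_of_nonneg hpi.le]
            simp
          rw [this]
          exact le_of_eq (by ring)
        · push Not at hex
          have h8 := h5 v hv hex
          calc ‖b‖ * ‖A l b J v‖ ≤ 1 * (2 * Real.pi * ‖b‖ ^ 2) :=
                mul_le_mul hb h8 (norm_nonneg _) (by norm_num)
            _ = 2 * Real.pi * ‖b‖ ^ 2 := one_mul _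
      by_cases hin : w.natAbs ≤ D
      · rw [A_succ, h2 (w + l J) (by omega), h2 (w - l J) (by omega)]
        simp only [add_zero, mul_zero]
        exact h5 w hw (fun j hj => hwj j (Nat.lt_succ_of_lt hj))
      · push Not at hin
        rw [A_succ, h2 w hin, zero_add, mul_add]
        rcases lt_or_gt_of_ne hw with hneg | hposw
        · rw [h2 (w - l J) (by omega), mul_zero, add_zero]
          exact key _ (by omega)
        · rw [h2 (w + l J) (by omega), mul_zero, zero_add]
          exact key _ (by omega)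

theorem A_norm_le (l : ℕ → ℕ) (hl0 : 0 < l 0) (hl : ∀ j, 3 * l j ≤ l (j + 1)) (b : ℂ) (hb : ‖b‖ ≤ 1)
    (J : ℕ) (w : ℤ) : ‖A l b J w‖ ≤ 2 * Real.pi := by
  have hpi := Real.pi_pos
  have hb0 := norm_nonneg b
  have hn : ‖(2 * Real.pi : ℂ)‖ = 2 * Real.pi := by
    rw [norm_mul, Complex.norm_real, Real.norm_of_nonneg hpi.le]
    simp
  obtain ⟨h1, h2, h3, h4, h5⟩ := A_props l hl0 hl b hb J
  by_cases hw : w = 0
  · rw [hw, h3, hn]
  · by_cases hex : ∃ j, j < J ∧ w.natAbs = l j
    · obtain ⟨j, hj, hvj⟩ := hex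
      obtain ⟨h6, h7⟩ := h4 j hj
      have hval : A l b J w = 2 * Real.pi * b := by
        have h : w = (l j : ℤ) ∨ w = -(l j : ℤ) := by omega
        rcases h with h | h
        · rw [h]; exact h6
        · rw [h]; exact h7
      rw [hval, norm_mul, hn]
      nlinarith
    · push Not at hex
      have h8 := h5 w hw hex
      nlinarith [pow_le_one₀ hb0 hb (n := 2)]

/-- correlation of a character with `S_m · G_J` -/
noncomputable def T (n l : ℕ → ℕ) (b : ℂ) (J m : ℕ) (N : ℤ) : ℂ :=
  ∫ x in (0:ℝ)..(2 * Real.pi), e N x * ((S n m x : ℂ) * G l b J x)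

theorem T_eq (n l : ℕ → ℕ) (b : ℂ) (J m : ℕ) (N : ℤ) :
    T n l b J m N = ∑ k ∈ range m, (A l b J (N + n k) + A l b J (N - n k)) / 2 := by
  unfold T A
  have hI : ∀ v : ℤ, IntervalIntegrable (fun x => e v x * G l b J x) volume 0 (2 * Real.pi) :=
    fun v => ((continuous_e v).mul (continuous_G l b J)).intervalIntegrable _ _
  have h1 : ∀ k ∈ range m, ((∫ x in (0:ℝ)..(2 * Real.pi), e (N + n k) x * G l b J x) +
      ∫ x in (0:ℝ)..(2 * Real.pi), e (N - n k) x * G l b J x) / 2 =
      ∫ x in (0:ℝ)..(2 * Real.pi), (e (N + n k) x * G l b J x + e (N - n k) x * G l b J x) / 2 := by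
    intro k _
    rw [intervalIntegral.integral_div, intervalIntegral.integral_add (hI _) (hI _)]
  rw [Finset.sum_congr rfl h1, ← intervalIntegral.integral_finsetSum]
  · refine intervalIntegral.integral_congr (fun x _ => ?_)
    simp only [S]
    rw [Complex.ofReal_sum, Finset.sum_mul, Finset.mul_sum]
    refine Finset.sum_congr rfl (fun k _ => ?_)
    rw [cos_eq, sub_eq_add_neg N, e_add, e_add]
    ring
  · intro k _
    exact ((hI _).add (hI _)).div_const 2

/-- no nonzero frequency of bounded size is a difference of large terms -/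
theorem no_coinc (n : ℕ → ℕ) (q : ℝ) (hq : 1 < q) (hn : ∀ k, 0 < n k)
    (h : ∀ k, q * (n k : ℝ) ≤ (n (k + 1) : ℝ)) (N : ℤ) (hN : N ≠ 0) :
    ∃ K : ℕ, ∀ k, K ≤ k → ∀ s : ℤ, (s = N + n k ∨ s = N - n k) →
      s ≠ 0 ∧ ∀ i, s.natAbs ≠ n i := by
  have hmono := strictMono_n n q hq hn h
  obtain ⟨K, hK⟩ : ∃ K : ℕ, q / (q - 1) * (N.natAbs : ℝ) < n K := by
    obtain ⟨K, hK⟩ := exists_nat_gt (q / (q - 1) * (N.natAbs : ℝ))
    refine ⟨K, hK.trans_le ?_⟩
    exact_mod_cast hmono.id_le K
  have hq1 : 0 < q - 1 := by linarith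
  refine ⟨K, fun k hk s hs => ?_⟩
  have hk' : q / (q - 1) * (N.natAbs : ℝ) < n k := by
    refine hK.trans_le ?_
    exact_mod_cast hmono.monotone hk
  have hk2 : q * (N.natAbs : ℝ) < (q - 1) * n k := by
    rw [div_mul_eq_mul_div, div_lt_iff₀ hq1] at hk'
    linarith
  have hN0 : (0 : ℝ) ≤ (N.natAbs : ℝ) := Nat.cast_nonneg _
  have hNn : (N.natAbs : ℝ) < n k := by nlinarith
  have hNn' : N.natAbs < n k := by exact_mod_cast hNn
  have hgap : ∀ i j, i < j → (q - 1) * (n j : ℝ) ≤ q * ((n j : ℝ) - n i) := by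
    intro i j hij
    have h1 : q * (n i : ℝ) ≤ n (i + 1) := h i
    have h2 : (n (i + 1) : ℝ) ≤ n j := by exact_mod_cast hmono.monotone hij
    nlinarith
  constructor
  · rcases hs with rfl | rfl <;> omega
  · intro i hi
    rcases lt_trichotomy i k with hik | hik | hik
    · have h1 := hgap i k hik
      have h3 : n k ≤ N.natAbs + n i := by
        rcases hs with rfl | rfl <;> omega
      have h3' : (n k : ℝ) ≤ N.natAbs + n i := by exact_mod_cast h3
      nlinarith
    · subst hik
      rcases hs with rfl | rfl <;> omega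
    · have h1 := hgap k i hik
      have h3 : n i ≤ N.natAbs + n k := by
        rcases hs with rfl | rfl <;> omega
      have h3' : (n i : ℝ) ≤ N.natAbs + n k := by exact_mod_cast h3
      have h4 : (n k : ℝ) ≤ n i := by exact_mod_cast (hmono hik).le
      nlinarith

end Pool.Agent.Helper5_lac
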